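import Pool.Agent.H690R2.PC.Main

/-!
The parameters for which the formula has a model, and the size of its smallest models.
The first two proofs repeat those of `root_step` and `z_zero_step` in
`Pool.Agent.H690R2.PC.Force`, keeping the class of the state.
-/

set_option autoImplicit false

open MeasureTheory ProbabilityTheory

namespace Pool.Agent.H690R2.PC

namespace Sharp

section

variable {M : MC} {κ : ℝ} {r : M.S} (hI : ∀ t, M.Rch r t → NI M κ t)
include hI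

theorem z_zero_gen {t : M.S} {N : Set M.S} (hr : M.Rch r t) (hN : Step M t N)
    (hz : M.z t = 0) : ∃ s, M.Rch r s ∧ s ∈ N ∧ M.z s = 0 ∧ M.x s = 2 * M.x t := by
  have e := z_step hI hN
  have n1 : ∀ s, M.p t s ≠ 0 → 0 ≤ ind N s * M.z s := by
    intro s hs
    by_cases h3 : s ∈ N
    · exact mul_nonneg (ind_nonneg N s) (z_nonneg hI (hr.tail hs) (hN.sub h3))
    · rw [ind_not h3, zero_mul]
  have n2 : ∀ s, M.p t s ≠ 0 → 0 ≤ ind N s * (M.x s - 2 * M.x t) ^ 2 :=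
    fun s _ => mul_nonneg (ind_nonneg N s) (sq_nonneg _)
  have e1 := M.ex_nonneg t n1
  have e2 := M.ex_nonneg t n2
  have z1 : M.ex t (fun s => ind N s * M.z s) = 0 := by linarith
  have z2 : M.ex t (fun s => ind N s * (M.x s - 2 * M.x t) ^ 2) = 0 := by linarith
  obtain ⟨s, hs, hsN⟩ := ex_pos_exists M (s := t) (T := N) (by rw [hN.mass]; norm_num)
  have b2 : ∀ s, |(M.x s - 2 * M.x t) ^ 2| ≤ 9 := by
    intro s
    have h1 := abs_le.1 (abs_x M t)
    have h2 := abs_le.1 (abs_x M s)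
    rw [abs_of_nonneg (sq_nonneg _)]
    nlinarith
  have f1 := M.ex_eq_zero t (abs_ind_mul N (abs_z hI)) n1 z1 s hs
  have f2 := M.ex_eq_zero t (abs_ind_mul N b2) n2 z2 s hs
  simp only [ind_mem hsN, one_mul] at f1 f2
  refine ⟨s, hr.tail hs, hsN, f1, ?_⟩
  have := pow_eq_zero_iff (two_ne_zero) |>.1 f2
  linarith

theorem root_step' (h : NR M κ r) :
    ∃ s, M.Rch r s ∧ s ∈ M.C 0 ∧ M.z s = 0 ∧ M.x s = 2 * κ := by
  -- the mass of the classes
  have d84 : Disjoint (M.C 8) (M.C 4) := C_disj M (by norm_num) (by norm_num)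
  have u84 := ex_union M r d84
  rw [h.h1, h.h2] at u84
  have hb : M.ex r (ind (M.C 4)) = 1 / 2 - κ := by linarith
  have tot : ∀ T : Set M.S, Disjoint (M.C 8 ∪ M.C 4 ∪ M.C 0) T → M.ex r (ind T) = 0 := by
    intro T hT
    have d0 : Disjoint (M.C 8 ∪ M.C 4) (M.C 0) := by
      rw [Set.disjoint_union_left]
      exact ⟨C_disj M (by norm_num) (by norm_num), C_disj M (by norm_num) (by norm_num)⟩
    have u1 := ex_union M r hT
    rw [ex_union M r d0, h.h2, h.h3] at u1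
    have u2 := M.ex_ind_le r ((M.C 8 ∪ M.C 4 ∪ M.C 0) ∪ T)
    have u3 := M.ex_ind_nonneg r T
    linarith
  have dis : ∀ j, j ≠ 8 → j ≠ 4 → j ≠ 0 → Disjoint (M.C 8 ∪ M.C 4 ∪ M.C 0) (M.C j) := by
    intro j h1 h2 h3
    rw [Set.disjoint_union_left, Set.disjoint_union_left]
    exact ⟨⟨C_disj M (by norm_num) h1.symm, C_disj M (by norm_num) h2.symm⟩,
      C_disj M (by norm_num) h3.symm⟩
  have m3 : M.ex r (ind (M.C 3)) = 0 := tot _ (dis 3 (by norm_num) (by norm_num) (by norm_num))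
  have m9 : M.ex r (ind (M.C 9)) = 0 := tot _ (dis 9 (by norm_num) (by norm_num) (by norm_num))
  have hn0 : ∀ s, s ∈ M.C 0 → s ∉ M.C 1 := fun s h1 h2 =>
    Set.disjoint_left.1 (C_disj M (by norm_num) (by norm_num : (0 : ℕ) ≠ 1)) h1 h2
  -- first coordinate
  have hx : M.ex r (fun s => ind (M.C 0) s * M.x s) = κ := by
    have h4 := h.h4
    unfold MC.two at h4
    rw [m3, zero_add] at h4
    rw [← h4]
    refine M.ex_congr r fun s hs => ?_
    have h9 := ex_zero_not M m9 hs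
    by_cases h0 : s ∈ M.C 0
    · rw [ind_mem h0, ind_mem (show s ∈ M.C 9 ∪ M.C 0 from Or.inr h0), x_not M (hn0 s h0), MC.a]
    · rw [ind_not h0, ind_not (show s ∉ M.C 9 ∪ M.C 0 from by rintro (h' | h'); exacts [h9 h', h0 h'])]
      ring
  -- second coordinate
  have hy : M.ex r (fun s => ind (M.C 0) s * M.y s) = κ ^ 2 := by
    have h5 := h.h5
    unfold MC.two at h5
    have e1 : M.ex r (fun s => ind (M.C 9 ∪ (M.C 0 ∪ M.C 8)) s * M.ex s (ind (M.C 4))) =
        M.ex r (fun s => ind (M.C 0) s * M.y s + (1 - κ) * ind (M.C 8) s) := by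
      refine M.ex_congr r fun s hs => ?_
      have h9 := ex_zero_not M m9 hs
      by_cases h0 : s ∈ M.C 0
      · have h8 : s ∉ M.C 8 := fun h8 =>
          Set.disjoint_left.1 (C_disj M (by norm_num) (by norm_num : (0 : ℕ) ≠ 8)) h0 h8
        rw [ind_mem h0, ind_not h8, ind_mem (show s ∈ M.C 9 ∪ (M.C 0 ∪ M.C 8) from
          Or.inr (Or.inl h0)), y_not M (hn0 s h0), MC.b]
        ring
      · by_cases h8 : s ∈ M.C 8
        · have h' := (hI s (Relation.ReflTransGen.single hs)).h8 h8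
          have u := ex_union M s (C_disj M (by norm_num) (by norm_num) : Disjoint (M.C 3) (M.C 4))
          rw [h'.h1, h'.h2] at u
          rw [ind_not h0, ind_mem h8, ind_mem (show s ∈ M.C 9 ∪ (M.C 0 ∪ M.C 8) from
            Or.inr (Or.inr h8))]
          linarith
        · rw [ind_not h0, ind_not h8, ind_not (show s ∉ M.C 9 ∪ (M.C 0 ∪ M.C 8) from by
            rintro (h' | h' | h'); exacts [h9 h', h0 h', h8 h'])]
          ring
    have e2 : M.ex r (fun s => ind (M.C 0) s * M.y s + (1 - κ) * ind (M.C 8) s) =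
        M.ex r (fun s => ind (M.C 0) s * M.y s) + (1 - κ) * M.ex r (ind (M.C 8)) := by
      rw [M.ex_add r (abs_ind_mul _ (abs_y M)) (D := |1 - κ|), M.ex_mul]
      intro s
      rw [abs_mul]
      calc |1 - κ| * |ind (M.C 8) s| ≤ |1 - κ| * 1 :=
            mul_le_mul_of_nonneg_left (abs_ind _ s) (abs_nonneg _)
        _ = _ := mul_one _
    rw [e1, e2, hb, h.h1] at h5
    linarith
  have e := key M r (M.C 0) M.x M.y (abs_x M) (abs_y M) (2 * κ)
  rw [hx, hy, h.h3] at e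
  have e' : M.ex r (fun s => ind (M.C 0) s * M.z s) +
      1 / 2 * M.ex r (fun s => ind (M.C 0) s * (M.x s - 2 * κ) ^ 2) = 0 := by
    unfold MC.z
    rw [e]
    ring
  have n1 : ∀ s, M.p r s ≠ 0 → 0 ≤ ind (M.C 0) s * M.z s := by
    intro s hs
    by_cases h3 : s ∈ M.C 0
    · exact mul_nonneg (ind_nonneg _ s) (z_nonneg hI (Relation.ReflTransGen.single hs) (Or.inl h3))
    · rw [ind_not h3, zero_mul]
  have n2 : ∀ s, M.p r s ≠ 0 → 0 ≤ ind (M.C 0) s * (M.x s - 2 * κ) ^ 2 :=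
    fun s _ => mul_nonneg (ind_nonneg _ s) (sq_nonneg _)
  have e1 := M.ex_nonneg r n1
  have e2 := M.ex_nonneg r n2
  have z1 : M.ex r (fun s => ind (M.C 0) s * M.z s) = 0 := by linarith
  have z2 : M.ex r (fun s => ind (M.C 0) s * (M.x s - 2 * κ) ^ 2) = 0 := by linarith
  obtain ⟨s, hs, hsN⟩ := ex_pos_exists M (s := r) (T := M.C 0) (by rw [h.h3]; norm_num)
  have b2 : ∀ s, |(M.x s - 2 * κ) ^ 2| ≤ (1 + |2 * κ|) ^ 2 := by
    intro s
    rw [abs_pow]
    exact pow_le_pow_left₀ (abs_nonneg _) ((abs_sub _ _).trans (by linarith [abs_x M s])) 2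
  have f1 := M.ex_eq_zero r (abs_ind_mul _ (abs_z hI)) n1 z1 s hs
  have f2 := M.ex_eq_zero r (abs_ind_mul _ b2) n2 z2 s hs
  simp only [ind_mem hsN, one_mul] at f1 f2
  refine ⟨s, Relation.ReflTransGen.single hs, hsN, f1, ?_⟩
  have := pow_eq_zero_iff (two_ne_zero) |>.1 f2
  linarith


/-- After `j` steps either the chain goes on, or it has ended after an even number of steps. -/
theorem chain_parity (h : NR M κ r) (j : ℕ) :
    (∃ s, M.Rch r s ∧ s ∈ M.C (j % 2) ∧ M.z s = 0 ∧ M.x s = 2 ^ j * (2 * κ)) ∨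
      ∃ k, 1 ≤ k ∧ (2 : ℝ) ^ (2 * k) * (2 * κ) = 1 / 4 := by
  induction j with
  | zero =>
    obtain ⟨s, h1, h2, h3, h4⟩ := root_step' hI h
    exact Or.inl ⟨s, h1, h2, h3, by rw [h4]; ring⟩
  | succ j ih =>
    rcases ih with ⟨s, h1, h2, h3, h4⟩ | ih
    · have hs : ∀ u, M.p s u ≠ 0 → NI M κ u := fun u hu => hI u (h1.tail hu)
      rcases Nat.mod_two_eq_zero_or_one j with hj | hj
      · rw [hj] at h2
        obtain ⟨t, g1, g2, g3, g4⟩ := z_zero_gen hI h1 (step0 M h2 ((hI s h1).h0 h2) hs) h3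
        have hj' : (j + 1) % 2 = 1 := by omega
        exact Or.inl ⟨t, g1, by rw [hj']; exact g2, g3, by rw [g4, h4, pow_succ]; ring⟩
      · rw [hj] at h2
        obtain ⟨t, g1, g2, g3, g4⟩ := z_zero_gen hI h1 (step1 M h2 ((hI s h1).h1 h2) hs) h3
        have hj' : (j + 1) % 2 = 0 := by omega
        rcases g2 with g2 | g2
        · exact Or.inl ⟨t, g1, by rw [hj']; exact g2, g3, by rw [g4, h4, pow_succ]; ring⟩
        · right
          obtain ⟨k, hk⟩ : ∃ k, j + 1 = 2 * k := ⟨(j + 1) / 2, by omega⟩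
          refine ⟨k, by omega, ?_⟩
          have e := (x_two hI g1 g2).1
          rw [g4, h4] at e
          rw [← hk, pow_succ]
          linarith
    · exact Or.inr ih

/-- If the formula has a model and the parameter is positive, then it is `4 ^ (-k) / 8`. -/
theorem param (h : NR M κ r) (hκ : 0 < κ) : ∃ k : ℕ, 1 ≤ k ∧ κ = (1 / 4) ^ k / 8 := by
  obtain ⟨j, hj⟩ := pow_unbounded_of_one_lt (1 / (2 * κ)) (by norm_num : (1 : ℝ) < 2)
  rcases chain_parity hI h j with ⟨s, -, -, -, h4⟩ | ⟨k, hk, e⟩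
  · exfalso
    rw [div_lt_iff₀ (by positivity)] at hj
    have := (abs_le.1 (abs_x M s)).2
    rw [h4] at this
    linarith
  · refine ⟨k, hk, ?_⟩
    have e2 : (2 : ℝ) ^ (2 * k) = 4 ^ k := by rw [pow_mul]; norm_num
    rw [e2] at e
    have e3 : ((1 : ℝ) / 4) ^ k * 4 ^ k = 1 := by rw [← mul_pow]; norm_num
    have p4 : (0 : ℝ) < 4 ^ k := by positivity
    have : κ * 4 ^ k = (1 / 4) ^ k / 8 * 4 ^ k := by
      linear_combination (1 / 2) * e - (1 / 8) * e3
    exact mul_right_cancel₀ p4.ne' this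

end

/-- What a model of the formula gives. -/
theorem of_models {M : MC} {κ : Set.Icc (0 : ℝ) 1} (hM : M.Models (thePhi.inst κ)) :
    ∃ r, (∀ t, M.Rch r t → NI M κ t) ∧ NR M κ r := by
  obtain ⟨r, hr⟩ := hM
  rw [inst_thePhi] at hr
  obtain ⟨h1, h2⟩ := (mem_phi _ _ _).1 hr
  exact ⟨r, fun t ht => not_not.1 (M.untl_zero_rch h2 ht), h1⟩

theorem quarter (k : ℕ) : ((1 : ℝ) / 4) ^ k = (1 / 2) ^ (2 * k) := by
  rw [pow_mul]; norm_num

/-- The finite model. -/
theorem model (k : ℕ) (hk : 1 ≤ k) (κ : Set.Icc (0 : ℝ) 1) (hκ : (κ : ℝ) = (1 / 4) ^ k / 8) :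
    ∃ M : MC, Nat.card M.S = 2 * k + 9 ∧ M.Models (thePhi.inst κ) := by
  have hp1 : ((1 : ℝ) / 4) ^ k ≤ 1 := pow_le_one₀ (by norm_num) (by norm_num)
  have k1 : (κ : ℝ) ≤ 1 / 2 := by rw [hκ]; linarith
  refine ⟨mdl (2 * k) κ κ.2.1 k1, ?_, (Sum.inr 0 : St (2 * k)), ?_⟩
  · show Nat.card (Fin (2 * k + 1) ⊕ Fin 8) = 2 * k + 9
    rw [Nat.card_eq_fintype_card, Fintype.card_sum, Fintype.card_fin, Fintype.card_fin]
  · rw [inst_thePhi]
    refine (mem_phi _ _ _).2 ⟨NR_mdl κ.2.1 k1 (by omega) (by omega) (by rw [hκ, quarter]), ?_⟩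
    exact MC.untl_empty _ _ fun t ht => ht (NI_mdl κ.2.1 k1 t)

/-- The lower bound. -/
theorem lower (k : ℕ) (κ : Set.Icc (0 : ℝ) 1) (hκ : (κ : ℝ) = (1 / 4) ^ k / 8) (M : MC)
    (hM : M.Models (thePhi.inst κ)) : ((2 * k + 1 : ℕ) : Cardinal) ≤ Cardinal.mk M.S := by
  obtain ⟨r, hI, h1⟩ := of_models hM
  exact large hI h1 (2 * k) (by rw [hκ, quarter]; ring)

end Sharp

end Pool.Agent.H690R2.PC
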